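import Mathlib

/-!
# MP_2d361f_co: the unique subset exchange relation is not symmetric

A rank-4 matroid on eight elements with two disjoint base pairs.
-/

namespace Pool.Agent.Results.MP_2d361f_co.Counter

open Function

variable {α : Type}

/-- `E(X; A, B)`. -/
def Ex (M : Matroid α) (X A B : Set α) : Set (Set α) :=
  {Y | Y ⊆ B ∧ M.IsBase (A \ X ∪ Y) ∧ M.IsBase (B \ Y ∪ X)}

/-- `B'` arises from `B` by a unique subset exchange. -/
def Step (M : Matroid α) {m : ℕ} (B B' : Fin m → Set α) : Prop :=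
  ∃ i j : Fin m, i < j ∧ ∃ X Y : Set α, X ⊆ B i ∧ Ex M X (B i) (B j) = {Y} ∧
    B' = update (update B i (B i \ X ∪ Y)) j (B j \ Y ∪ X)

def bs (s : Finset (Fin 8)) : Prop :=
  s.card = 4 ∧ ¬ ({3, 6, 7} : Finset (Fin 8)) ⊆ s ∧ ¬ s ⊆ {1, 3, 4, 6, 7} ∧ s ≠ {0, 1, 2, 7} ∧
    s ≠ {2, 3, 4, 5}

instance : DecidablePred bs := fun s => by unfold bs; infer_instance

theorem exch : ∀ s, bs s → ∀ t, bs t → ∀ a, a ∈ s → a ∉ t →
    ∃ b, b ∈ t ∧ b ∉ s ∧ bs (insert b (s.erase a)) := by decide +kernel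

noncomputable def M : Matroid (Fin 8) :=
  Matroid.ofIsBaseOfFinite (E := Set.univ) Set.finite_univ (fun S => ∃ s, bs s ∧ S = ↑s)
    ⟨_, {0, 2, 3, 6}, by decide, rfl⟩
    (by
      rintro _ _ ⟨s, hs, rfl⟩ ⟨t, ht, rfl⟩ a ⟨ha, ha'⟩
      obtain ⟨b, hb, hb', h⟩ := exch s hs t ht a ha ha'
      exact ⟨b, ⟨hb, hb'⟩, _, h, by simp⟩)
    fun _ _ => Set.subset_univ _

theorem base_iff (s : Finset (Fin 8)) : M.IsBase ↑s ↔ bs s :=
  ⟨fun ⟨_, ht, e⟩ => Finset.coe_injective e ▸ ht, fun h => ⟨s, h, rfl⟩⟩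

theorem mem_Ex (X A B Y : Finset (Fin 8)) :
    (↑Y : Set (Fin 8)) ∈ Ex M ↑X ↑A ↑B ↔ Y ⊆ B ∧ bs (A \ X ∪ Y) ∧ bs (B \ Y ∪ X) := by
  rw [← base_iff, ← base_iff, Finset.coe_union, Finset.coe_union, Finset.coe_sdiff,
    Finset.coe_sdiff, ← Finset.coe_subset]
  rfl

def P : Finset (Fin 8) := {0, 2, 4, 7}
def Q : Finset (Fin 8) := {1, 3, 5, 6}

def Good (A B : Finset (Fin 8)) : Prop :=
  bs A ∧ bs B ∧ ∀ X, ¬ X ⊆ A ∨ X = ∅ ∨ X = A ∨ ∃ Y, (Y ⊆ B ∧ bs (A \ X ∪ Y) ∧ bs (B \ Y ∪ X)) ∧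
    ∃ Z, (Z ⊆ B ∧ bs (A \ X ∪ Z) ∧ bs (B \ Z ∪ X)) ∧ Y ≠ Z

theorem good : Good P Q ∧ Good Q P := by
  unfold Good
  decide +kernel

theorem stuck : ∀ p ∈ [(P, Q), (Q, P)], Good p.1 p.2 := by
  simpa using good

theorem closed (B B' : Fin 2 → Set (Fin 8)) (h : Step M B B')
    (hB : ∃ p ∈ [(P, Q), (Q, P)], B = ![↑p.1, ↑p.2]) :
    ∃ p ∈ [(P, Q), (Q, P)], B' = ![↑p.1, ↑p.2] := by
  obtain ⟨p, hp, rfl⟩ := hB
  obtain ⟨i, j, hij, X, Y, hX, hE, rfl⟩ := h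
  obtain ⟨rfl, rfl⟩ : i = 0 ∧ j = 1 := by omega
  simp only [Matrix.cons_val_zero, Matrix.cons_val_one] at hX hE ⊢
  lift X to Finset (Fin 8) using Set.toFinite X
  obtain ⟨h1, h2, h3⟩ := stuck p hp
  rcases h3 X with h4 | rfl | rfl | ⟨Y1, hb1, Y2, hb2, hne⟩
  · exact absurd (Finset.coe_subset.1 hX) h4
  · have := (mem_Ex ∅ p.1 p.2 ∅).2 (by simp [h1, h2])
    rw [hE, Set.mem_singleton_iff] at this
    subst this
    refine ⟨p, hp, funext fun k => ?_⟩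
    fin_cases k <;> simp
  · have := (mem_Ex p.1 p.1 p.2 p.2).2 (by simp [h1, h2])
    rw [hE, Set.mem_singleton_iff] at this
    subst this
    refine ⟨(p.2, p.1), ?_, funext fun k => ?_⟩
    · simp only [List.mem_cons, List.not_mem_nil, or_false] at hp ⊢
      rcases hp with rfl | rfl <;> simp
    · fin_cases k <;> simp
  · have e1 := (mem_Ex X p.1 p.2 Y1).2 hb1
    have e2 := (mem_Ex X p.1 p.2 Y2).2 hb2
    rw [hE, Set.mem_singleton_iff] at e1 e2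
    exact absurd (Finset.coe_injective (e1.trans e2.symm)) hne

theorem uniq : ∀ Y : Finset (Fin 8), (Y ⊆ {1, 4, 5, 7} ∧ bs ({0, 2, 3, 6} \ {3, 6} ∪ Y) ∧
    bs ({1, 4, 5, 7} \ Y ∪ {3, 6})) ↔ Y = {4, 7} := by decide +kernel

/-- There are a finite matroid and base sequences `B`, `B'` such that `B'` is reachable from `B` by
unique subset exchanges but `B` is not reachable from `B'`. -/
theorem result : ∃ (M : Matroid (Fin 8)) (m : ℕ) (B B' : Fin m → Set (Fin 8)),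
    (∀ i, M.IsBase (B i)) ∧ (∀ i, M.IsBase (B' i)) ∧
    Relation.ReflTransGen (Step M) B B' ∧ ¬ Relation.ReflTransGen (Step M) B' B := by
  refine ⟨M, 2, ![↑({0, 2, 3, 6} : Finset (Fin 8)), ↑({1, 4, 5, 7} : Finset (Fin 8))], ![↑P, ↑Q],
    fun i => ?_, fun i => ?_, .single ⟨0, 1, by decide, ↑({3, 6} : Finset (Fin 8)),
      ↑({4, 7} : Finset (Fin 8)), Finset.coe_subset.2 (by decide), ?_, funext fun k => ?_⟩,
    fun h => ?_⟩
  · fin_cases i <;> exact (base_iff _).2 (by decide)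
  · fin_cases i <;> exact (base_iff _).2 (by decide)
  · ext Y
    lift Y to Finset (Fin 8) using Set.toFinite Y
    rw [Set.mem_singleton_iff, Finset.coe_inj, ← uniq]
    exact mem_Ex _ _ _ _
  · fin_cases k
    · show ((P : Finset (Fin 8)) : Set (Fin 8)) = ↑({0, 2, 3, 6} : Finset (Fin 8)) \
        ↑({3, 6} : Finset (Fin 8)) ∪ ↑({4, 7} : Finset (Fin 8))
      rw [← Finset.coe_sdiff, ← Finset.coe_union, Finset.coe_inj]
      decide
    · show ((Q : Finset (Fin 8)) : Set (Fin 8)) = ↑({1, 4, 5, 7} : Finset (Fin 8)) \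
        ↑({4, 7} : Finset (Fin 8)) ∪ ↑({3, 6} : Finset (Fin 8))
      rw [← Finset.coe_sdiff, ← Finset.coe_union, Finset.coe_inj]
      decide
  · have key : ∀ B, Relation.ReflTransGen (Step M) ![↑P, ↑Q] B →
        ∃ p ∈ [(P, Q), (Q, P)], B = ![↑p.1, ↑p.2] := by
      intro B hB
      induction hB with
      | refl => exact ⟨(P, Q), by simp, rfl⟩
      | tail _ hs ih => exact closed _ _ hs ih
    obtain ⟨p, hp, e⟩ := key _ h
    have e0 : ({0, 2, 3, 6} : Finset (Fin 8)) = p.1 := Finset.coe_injective (congrFun e 0)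
    simp only [List.mem_cons, List.not_mem_nil, or_false] at hp
    rcases hp with rfl | rfl <;> exact absurd e0 (by decide)

end Pool.Agent.Results.MP_2d361f_co.Counter
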